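import Pool.Agent.H27.G.R_seed8.H357R2.SI.Queue

open Filter Topology

namespace Pool.Agent.H357R2.SI

/-- The one-sided condition in terms of natural `H`. -/
lemma bad_iff (lam : ℝ) (hlam : 0 < lam) (n : ℕ) (hn : 3 ≤ n) :
    (¬ ∀ H : ℝ, 0 < H → H ≤ n → (piS n H : ℝ) ≤ lam * H / Real.log n) ↔
      ∃ H : ℕ, 1 ≤ H ∧ H ≤ n ∧ lam * H < pc n (n + H) * Real.log n := by
  have hn1 : (1 : ℝ) < n := by exact_mod_cast (by omega : 1 < n)
  have hl : 0 < Real.log n := Real.log_pos hn1
  push Not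
  constructor
  · rintro ⟨H, hH0, hHn, hH⟩
    rw [piS_nat n H hH0.le, div_lt_iff₀ hl] at hH
    have hf : (⌊H⌋₊ : ℝ) ≤ H := Nat.floor_le hH0.le
    refine ⟨⌊H⌋₊, ?_, ?_, ?_⟩
    · by_contra h0
      have h1 : ⌊H⌋₊ = 0 := by omega
      rw [h1, add_zero, pc_self] at hH
      simp only [Nat.cast_zero, zero_mul] at hH
      have := mul_pos hlam hH0
      linarith
    · exact_mod_cast hf.trans hHn
    · exact (mul_le_mul_of_nonneg_left hf hlam.le).trans_lt hH
  · rintro ⟨H, hH1, hHn, hH⟩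
    have hH0 : (0 : ℝ) < H := by exact_mod_cast hH1
    refine ⟨H, hH0, by exact_mod_cast hHn, ?_⟩
    rw [piS_nat n H hH0.le, Nat.floor_natCast, div_lt_iff₀ hl]
    exact hH

open Classical in
/-- number of bad integers below `N` -/
noncomputable def badc (lam : ℝ) (N : ℕ) : ℕ :=
  ((Finset.range N).filter
    (fun n : ℕ => ¬ ∀ H : ℝ, 0 < H → H ≤ n → (piS n H : ℝ) ≤ lam * H / Real.log n)).card

lemma badc_bounds (lam : ℝ) (hlam : 1 < lam) (η : ℝ) (hη : 0 < η) (hη1 : η ≤ 1 / 10) :
    ∀ᶠ N : ℕ in atTop, (1 / lam - 8 * η) * N ≤ badc lam N ∧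
      (badc lam N : ℝ) ≤ (1 / lam + 8 * η) * N := by
  classical
  set δ : ℝ := min (η ^ 2) (η ^ 2 * (lam - 1) / 6) with hδ
  have hlam1 : 0 < lam - 1 := by linarith
  have hlam0 : 0 < lam := by linarith
  have hδ0 : 0 < δ := by
    rw [hδ]; apply lt_min <;> positivity
  have hδη : δ ≤ η ^ 2 := min_le_left _ _
  have hδl : 3 * δ ≤ η ^ 2 * ((lam - 1) / 2) := by
    have := min_le_right (η ^ 2) (η ^ 2 * (lam - 1) / 6)
    rw [← hδ] at this
    linarith
  have hη2 : η ^ 2 ≤ η / 10 := by nlinarith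
  have hη21 : η ^ 2 ≤ 1 := by nlinarith
  obtain ⟨X₁, hX₁3, hX₁⟩ := pc_window_upper δ hδ0
  obtain ⟨X₂, hX₂3, hX₂⟩ := pnt δ hδ0
  have hNlim : Tendsto (fun N : ℕ => η * (N : ℝ)) atTop atTop :=
    (tendsto_natCast_atTop_atTop).const_mul_atTop hη
  have hXlim : Tendsto (fun N : ℕ => ⌊η * (N : ℝ)⌋₊) atTop atTop :=
    tendsto_nat_floor_atTop.comp hNlim
  have hlogN : Tendsto (fun N : ℕ => Real.log (N : ℝ)) atTop atTop :=
    Real.tendsto_log_atTop.comp tendsto_natCast_atTop_atTop
  have hlogX : Tendsto (fun N : ℕ => Real.log (⌊η * (N : ℝ)⌋₊ : ℝ)) atTop atTop :=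
    Real.tendsto_log_atTop.comp (tendsto_natCast_atTop_atTop.comp hXlim)
  filter_upwards [hXlim.eventually_ge_atTop (max X₁ X₂), hNlim.eventually_ge_atTop 2,
    hlogN.eventually_ge_atTop (Real.log (2 / η) / η), hlogX.eventually_ge_atTop (lam / η)]
    with N hXN hN2 hLN hLX
  set X : ℕ := ⌊η * (N : ℝ)⌋₊ with hX
  have hX1 : X₁ ≤ X := (le_max_left _ _).trans hXN
  have hX2 : X₂ ≤ X := (le_max_right _ _).trans hXN
  have hX3 : 3 ≤ X := hX₁3.trans hX1
  have hNpos : (0 : ℝ) < N := by
    by_contra h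
    have : (N : ℝ) ≤ 0 := not_lt.mp h
    nlinarith
  have hXle : (X : ℝ) ≤ η * N := Nat.floor_le (by positivity)
  have hXN' : (X : ℝ) ≤ N := by nlinarith
  have hXNn : X ≤ N := by exact_mod_cast hXN'
  have hXge : η * N / 2 ≤ X := by
    have := Nat.lt_floor_add_one (η * (N : ℝ))
    rw [← hX] at this
    linarith
  have hXr : (3 : ℝ) ≤ X := by exact_mod_cast hX3
  have hN3 : 3 ≤ N := hX3.trans hXNn
  set L : ℝ := Real.log N with hL
  set ℓ : ℝ := Real.log X with hℓ
  have hℓ0 : 0 < ℓ := Real.log_pos (by linarith)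
  have hL0 : 0 < L := Real.log_pos (by linarith)
  have hℓL : ℓ ≤ L := Real.log_le_log (by linarith) hXN'
  have hratio : (1 - η) * L ≤ ℓ := by
    have h1 : Real.log (η * N / 2) ≤ ℓ := Real.log_le_log (by positivity) hXge
    have h2 : Real.log (η * N / 2) = L - Real.log (2 / η) := by
      rw [show η * (N : ℝ) / 2 = N / (2 / η) by field_simp, Real.log_div (by positivity)
        (by positivity)]
    rw [div_le_iff₀ hη] at hLN
    nlinarith
  have hc : lam / ℓ ≤ η := by
    rw [div_le_iff₀ hη] at hLX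
    rw [div_le_iff₀ hℓ0]
    linarith
  -- the window upper bound
  have hwin : ∀ n H : ℕ, X ≤ n → (pc n (n + H) : ℝ) * Real.log n ≤ H + δ * (2 * n + H) :=
    fun n H hn => hX₁ n H (hX1.trans hn)
  constructor
  · -- lower bound
    have hV : ∀ H : ℕ, 1 ≤ H → X + H ≤ N → (pc X (X + H) : ℝ) - lam / ℓ * H ≤ 3 * δ * N / ℓ := by
      intro H hH1 hHN
      have h1 := hwin X H le_rfl
      rw [← hℓ] at h1
      have hHr : (X : ℝ) + H ≤ N := by exact_mod_cast hHN
      have hH0 : (0 : ℝ) ≤ H := Nat.cast_nonneg H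
      rw [sub_le_iff_le_add, div_mul_eq_mul_div, ← add_div, le_div_iff₀ hℓ0]
      nlinarith
    have hq := queue_lower (lam / ℓ) (by positivity) X N hXNn (3 * δ * N / ℓ) (by positivity) hV
    -- B* is contained in the bad set
    have hsub : ((Finset.Ico X N).filter (fun n => ∃ H : ℕ, 1 ≤ H ∧ n + H ≤ N ∧
        lam / ℓ * H < pc n (n + H))).card ≤ badc lam N := by
      unfold badc
      apply Finset.card_le_card
      intro n hn
      rw [Finset.mem_filter, Finset.mem_Ico] at hn
      obtain ⟨⟨hn1, hn2⟩, H, hH1, hHN, hH⟩ := hn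
      rw [Finset.mem_filter, Finset.mem_range]
      refine ⟨hn2, ?_⟩
      rw [bad_iff lam hlam0 n (by omega)]
      have hlogn : ℓ ≤ Real.log n := Real.log_le_log (by linarith) (by exact_mod_cast hn1)
      have h2 : lam * H < pc n (n + H) * Real.log n := by
        rw [div_mul_eq_mul_div, div_lt_iff₀ hℓ0] at hH
        refine hH.trans_le (mul_le_mul_of_nonneg_left hlogn (Nat.cast_nonneg _))
      refine ⟨H, hH1, ?_, h2⟩
      by_contra hHn
      push Not at hHn
      have h3 := hwin n H hn1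
      have hHr : (n : ℝ) < H := by exact_mod_cast hHn
      have hn0 : (0 : ℝ) ≤ n := Nat.cast_nonneg n
      have h4 : δ * (2 * n + H) ≤ δ * (3 * H) := mul_le_mul_of_nonneg_left (by linarith) hδ0.le
      have h5 : 3 * δ * H ≤ (lam - 1) / 2 * H := by
        apply mul_le_mul_of_nonneg_right _ (by linarith)
        nlinarith
      nlinarith
    have hsub' : (((Finset.Ico X N).filter (fun n => ∃ H : ℕ, 1 ≤ H ∧ n + H ≤ N ∧
        lam / ℓ * H < pc n (n + H))).card : ℝ) ≤ badc lam N := by exact_mod_cast hsub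
    -- primes in (X, N]
    have hpcXN : (1 - δ) * N / L - (1 + δ) * X / ℓ ≤ pc X N := by
      rw [pc_eq_sub hXNn]
      have h1 := (hX₂ N (hX2.trans hXNn)).1
      have h2 := (hX₂ X hX2).2
      linarith
    have h1 : (1 - 4 * η) * N / ℓ ≤ pc X N := by
      refine le_trans ?_ hpcXN
      have h2 : (1 - δ) * N * (1 - η) / ℓ ≤ (1 - δ) * N / L := by
        rw [div_le_div_iff₀ hℓ0 hL0]
        have h3 : 0 ≤ (1 - δ) * N := mul_nonneg (by linarith) hNpos.le
        nlinarith
      have h4 : (1 + δ) * X / ℓ ≤ (1 + δ) * (η * N) / ℓ := by gcongr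
      have h5 : (1 - 4 * η) * N / ℓ ≤ (1 - δ) * N * (1 - η) / ℓ - (1 + δ) * (η * N) / ℓ := by
        rw [← sub_div]
        apply div_le_div_of_nonneg_right _ hℓ0.le
        have h6 : 1 - 4 * η ≤ (1 - δ) * (1 - η) - (1 + δ) * η := by nlinarith
        have h7 := mul_le_mul_of_nonneg_right h6 hNpos.le
        linarith
      linarith
    have h2 : (1 - η) * ((1 - 4 * η) * N / ℓ) ≤ (1 - lam / ℓ) * pc X N := by
      apply mul_le_mul (by linarith) h1
      · apply div_nonneg _ hℓ0.le
        apply mul_nonneg (by linarith) hNpos.le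
      · linarith
    have h3 : (1 - 8 * η) * N / ℓ ≤ lam / ℓ * badc lam N := by
      have h4 := mul_le_mul_of_nonneg_left hsub' (by positivity : 0 ≤ lam / ℓ)
      have h5 : (1 - 8 * η) * N / ℓ ≤ (1 - η) * ((1 - 4 * η) * N / ℓ) - 3 * δ * N / ℓ := by
        rw [← mul_div_assoc, ← sub_div]
        apply div_le_div_of_nonneg_right _ hℓ0.le
        have h6 : 1 - 8 * η ≤ (1 - η) * (1 - 4 * η) - 3 * δ := by nlinarith
        have h7 := mul_le_mul_of_nonneg_right h6 hNpos.le
        linarith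
      linarith
    rw [div_mul_eq_mul_div, div_le_div_iff_of_pos_right hℓ0] at h3
    have h4 : (1 / lam - 8 * η) * N ≤ (1 - 8 * η) * N / lam := by
      rw [le_div_iff₀ hlam0]
      have : (1 / lam - 8 * η) * N * lam = (1 - 8 * η * lam) * N := by field_simp
      rw [this]
      apply mul_le_mul_of_nonneg_right _ hNpos.le
      nlinarith
    refine h4.trans ?_
    rw [div_le_iff₀ hlam0]
    linarith
  · -- upper bound
    set K : ℕ := ⌊η ^ 2 * (N : ℝ)⌋₊ with hK
    have hKle : (K : ℝ) ≤ η ^ 2 * N := Nat.floor_le (by positivity)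
    have hg := gc_upper (lam / L) (by positivity) K (N - X) X N rfl hXNn
    -- bad integers
    have hsub : badc lam N ≤ X + ((Finset.Ico X N).filter (fun n => ∃ H : ℕ, 1 ≤ H ∧ H ≤ K ∧
        lam / L * H ≤ pc n (n + H))).card := by
      unfold badc
      have h1 : (Finset.range N).filter
          (fun n : ℕ => ¬ ∀ H : ℝ, 0 < H → H ≤ n → (piS n H : ℝ) ≤ lam * H / Real.log n) ⊆
          Finset.range X ∪ (Finset.Ico X N).filter (fun n => ∃ H : ℕ, 1 ≤ H ∧ H ≤ K ∧
            lam / L * H ≤ pc n (n + H)) := by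
        intro n hn
        rw [Finset.mem_filter, Finset.mem_range] at hn
        obtain ⟨hn1, hn2⟩ := hn
        rw [Finset.mem_union, Finset.mem_range, Finset.mem_filter, Finset.mem_Ico]
        by_cases hnX : n < X
        · exact Or.inl hnX
        right
        push Not at hnX
        refine ⟨⟨hnX, hn1⟩, ?_⟩
        rw [bad_iff lam hlam0 n (by omega)] at hn2
        obtain ⟨H, hH1, hHn, hH⟩ := hn2
        have hH0 : (0 : ℝ) < H := by exact_mod_cast hH1
        have hHr : (H : ℝ) ≤ n := by exact_mod_cast hHn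
        have hnN : (n : ℝ) ≤ N := by exact_mod_cast hn1.le
        have hX0 : (3 : ℝ) ≤ n := hXr.trans (by exact_mod_cast hnX)
        have hlogn : Real.log n ≤ L := Real.log_le_log (by linarith) hnN
        refine ⟨H, hH1, ?_, ?_⟩
        · by_contra hHK
          push Not at hHK
          have h3 : η ^ 2 * N < H := (Nat.floor_lt (by positivity)).mp hHK
          have h4 := hwin n H hnX
          have h5 : δ * (2 * n + H) ≤ δ * (3 * N) := mul_le_mul_of_nonneg_left (by linarith) hδ0.le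
          have h6 : 3 * δ * N ≤ (lam - 1) / 2 * H := by
            calc 3 * δ * N ≤ η ^ 2 * ((lam - 1) / 2) * N :=
                  mul_le_mul_of_nonneg_right hδl hNpos.le
              _ = (lam - 1) / 2 * (η ^ 2 * N) := by ring
              _ ≤ (lam - 1) / 2 * H := mul_le_mul_of_nonneg_left h3.le (by linarith)
          nlinarith
        · rw [div_mul_eq_mul_div, div_le_iff₀ hL0]
          refine hH.le.trans (mul_le_mul_of_nonneg_left hlogn (Nat.cast_nonneg _))
      refine (Finset.card_le_card h1).trans ((Finset.card_union_le _ _).trans ?_)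
      rw [Finset.card_range]
    have hsub' : (badc lam N : ℝ) ≤ X + (((Finset.Ico X N).filter (fun n => ∃ H : ℕ, 1 ≤ H ∧
        H ≤ K ∧ lam / L * H ≤ pc n (n + H))).card : ℝ) := by exact_mod_cast hsub
    -- primes in (X, N + K]
    have hpc : (pc X (N + K) : ℝ) ≤ (1 + 3 * η ^ 2) * N / L := by
      have h1 : (pc X (N + K) : ℝ) ≤ Nat.primeCounting (N + K) := by
        rw [← pc_zero]
        exact_mod_cast pc_anti (Nat.zero_le X)
      have h2 := (hX₂ (N + K) (by omega)).2
      have h3 : (1 + δ) * ((N + K : ℕ) : ℝ) / Real.log ((N + K : ℕ) : ℝ) ≤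
          (1 + δ) * ((1 + η ^ 2) * N) / L := by
        apply div_le_div₀ (by positivity) _ hL0
        · apply Real.log_le_log hNpos
          push_cast
          have : (0 : ℝ) ≤ K := Nat.cast_nonneg K
          linarith
        · apply mul_le_mul_of_nonneg_left _ (by linarith)
          push_cast
          linarith
      have h4 : (1 + δ) * ((1 + η ^ 2) * N) / L ≤ (1 + 3 * η ^ 2) * N / L := by
        apply div_le_div_of_nonneg_right _ hL0.le
        rw [← mul_assoc]
        apply mul_le_mul_of_nonneg_right _ hNpos.le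
        nlinarith
      linarith
    have h1 := hg.trans hpc
    rw [div_mul_eq_mul_div, div_le_div_iff_of_pos_right hL0] at h1
    have h2 : (((Finset.Ico X N).filter (fun n => ∃ H : ℕ, 1 ≤ H ∧
        H ≤ K ∧ lam / L * H ≤ pc n (n + H))).card : ℝ) ≤ (1 + 3 * η ^ 2) * N / lam := by
      rw [le_div_iff₀ hlam0]
      linarith
    have h3 : (1 + 3 * η ^ 2) * N / lam ≤ (1 / lam + 3 * η ^ 2) * N := by
      rw [div_le_iff₀ hlam0]
      have : (1 / lam + 3 * η ^ 2) * N * lam = (1 + 3 * η ^ 2 * lam) * N := by field_simp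
      rw [this]
      apply mul_le_mul_of_nonneg_right _ hNpos.le
      have : 0 ≤ 3 * η ^ 2 := by positivity
      nlinarith
    have h4 : X + (1 / lam + 3 * η ^ 2) * N ≤ (1 / lam + 8 * η) * N := by nlinarith
    linarith

/-- Pareto law for the forward maximal function of the primes. -/
theorem pareto (lam : ℝ) (hlam : 1 < lam) :
    Tendsto (fun N : ℕ => (badc lam N : ℝ) / N) atTop (𝓝 (1 / lam)) := by
  rw [Metric.tendsto_atTop']
  intro e he
  set η : ℝ := min (e / 10) (1 / 10) with hη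
  have hη0 : 0 < η := lt_min (by positivity) (by norm_num)
  have h := badc_bounds lam hlam η hη0 (min_le_right _ _)
  obtain ⟨N₀, hN₀⟩ := (h.and (eventually_gt_atTop 0)).exists_forall_of_atTop
  refine ⟨N₀, fun N hN => ?_⟩
  obtain ⟨⟨h1, h2⟩, h3⟩ := hN₀ N hN.le
  have hN0 : (0 : ℝ) < N := by exact_mod_cast h3
  have hηe : η ≤ e / 10 := min_le_left _ _
  rw [Real.dist_eq, abs_lt]
  have h4 : 1 / lam - 8 * η ≤ (badc lam N : ℝ) / N := by
    rw [le_div_iff₀ hN0]; exact h1
  have h5 : (badc lam N : ℝ) / N ≤ 1 / lam + 8 * η := by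
    rw [div_le_iff₀ hN0]; exact h2
  constructor <;> linarith

end Pool.Agent.H357R2.SI
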