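import Pool.Agent.H27.G.R_seed8.Helper601.HKTwo
import Pool.Agent.H27.G.R_seed8.H357R2.SI.PairCount

set_option autoImplicit false

open Finset Nat ArithmeticFunction BoundingSieve

namespace Pool.Agent.H357R2.SI

open Pool.Agent.Helper601
open Pool.Agent.Helper601.HK (nuTwo nuTwo_apply nuTwo_mult nuTwo_prime dvd_of_dvd_PP pow_card_le)

/-- the encoded value -/
noncomputable def FFs (s : ℕ) (R : Finset ℕ) (n : ℕ) : ℕ :=
  n * ∏ r ∈ R.filter (fun r => r.Prime ∧ r ∣ n + s), r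

theorem prime_dvd_FFs (s : ℕ) (R : Finset ℕ) {p n : ℕ} (hp : p.Prime) :
    p ∣ FFs s R n ↔ p ∣ n ∨ (p ∈ R ∧ p ∣ n + s) := by
  unfold FFs
  rw [Nat.Prime.dvd_mul hp, Prime.dvd_finsetProd_iff hp.prime]
  constructor
  · rintro (h | ⟨r, hr, hpr⟩)
    · left; exact h
    · right
      rw [Finset.mem_filter] at hr
      have : p = r := (Nat.prime_dvd_prime_iff_eq hp hr.2.1).mp hpr
      subst this
      exact ⟨hr.1, hr.2.2⟩
  · rintro (h | ⟨h1, h2⟩)
    · left; exact h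
    · right
      exact ⟨p, Finset.mem_filter.mpr ⟨h1, hp, h2⟩, dvd_rfl⟩

open Classical in
/-- The sieve. -/
noncomputable def pairSieve (s : ℕ) (R : Finset ℕ) (hR : ∀ r ∈ R, 3 ≤ r) (a u N : ℕ) : BoundingSieve where
  support := (Finset.Ioc a (a + u)).image (FFs s R)
  prodPrimes := PP 1 N
  prodPrimes_squarefree := PP_squarefree 1 N
  weights := fun m => (((Finset.Ioc a (a + u)).filter (fun n => FFs s R n = m)).card : ℝ)
  weights_nonneg := fun _ => by positivity
  totalMass := u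
  nu := nuTwo R
  nu_mult := nuTwo_mult R
  nu_pos_of_prime := by
    intro p hp _
    rw [nuTwo_prime R hp]
    have : (0 : ℝ) < p := by exact_mod_cast hp.pos
    split_ifs <;> positivity
  nu_lt_one_of_prime := by
    intro p hp _
    rw [nuTwo_prime R hp]
    have h2 : (2 : ℝ) ≤ p := by exact_mod_cast hp.two_le
    split_ifs with h
    · have h3 : (3 : ℝ) ≤ p := by exact_mod_cast hR p h
      rw [div_lt_one (by linarith)]; linarith
    · rw [div_lt_one (by linarith)]; linarith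

theorem sum_supports (s : ℕ) (R : Finset ℕ) (hR : ∀ r ∈ R, 3 ≤ r) (a u N : ℕ) (Q : ℕ → Prop)
    [DecidablePred Q] :
    (∑ m ∈ (pairSieve s R hR a u N).support, if Q m then (pairSieve s R hR a u N).weights m else 0) =
      (((Finset.Ioc a (a + u)).filter (fun n => Q (FFs s R n))).card : ℝ) := by
  have h0 : (pairSieve s R hR a u N).support = (Finset.Ioc a (a + u)).image (FFs s R) := rfl
  have h1 : ∀ m, (pairSieve s R hR a u N).weights m =
    (((Finset.Ioc a (a + u)).filter (fun n => FFs s R n = m)).card : ℝ) := fun _ => rfl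
  rw [h0]
  simp only [h1]
  rw [Finset.card_filter]
  push_cast
  rw [← Finset.sum_fiberwise_of_maps_to (s := Finset.Ioc a (a + u))
    (t := (Finset.Ioc a (a + u)).image (FFs s R)) (g := FFs s R)
    (fun n hn => Finset.mem_image_of_mem _ hn)]
  apply Finset.sum_congr rfl
  intro m _
  split_ifs with hQ
  · rw [Finset.card_eq_sum_ones]
    push_cast
    apply Finset.sum_congr rfl
    intro n hn
    rw [Finset.mem_filter] at hn
    rw [if_pos (by rw [hn.2]; exact hQ)]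
  · symm
    apply Finset.sum_eq_zero
    intro n hn
    rw [Finset.mem_filter] at hn
    rw [if_neg (by rw [hn.2]; exact hQ)]

theorem pairSieve_rem {s : ℕ} {R : Finset ℕ} (hR3 : ∀ r ∈ R, 3 ≤ r) (hR : ∀ r ∈ R, r.Prime)
    (hRs : ∀ r ∈ R, ¬ r ∣ s) {a u N d : ℕ}
    (hd : d ∣ PP 1 N) : |(pairSieve s R hR3 a u N).rem d| ≤ d := by
  have hsq : Squarefree d := (PP_squarefree 1 N).squarefree_of_dvd hd
  have hd0 : 0 < d := Nat.pos_of_ne_zero hsq.ne_zero
  have h := count_pair s R hR hRs a u d hsq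
  have hf : R.filter (fun r => r.Prime ∧ r ∣ d) = R.filter (fun r : ℕ => r ∣ d) := by
    apply Finset.filter_congr
    intro r hr
    constructor
    · exact fun h => h.2
    · exact fun h => ⟨hR r hr, h⟩
  have e1 : (pairSieve s R hR3 a u N).multSum d =
      (((Finset.Ioc a (a + u)).filter
        (fun n : ℕ => ∀ p ∈ d.primeFactors, p ∣ n ∨ (p ∈ R ∧ p ∣ n + s))).card : ℝ) := by
    unfold BoundingSieve.multSum
    have h1 := sum_supports s R hR3 a u N (fun m => d ∣ m)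
    have h2 : (Finset.Ioc a (a + u)).filter (fun n => d ∣ FFs s R n) =
      (Finset.Ioc a (a + u)).filter
        (fun n : ℕ => ∀ p ∈ d.primeFactors, p ∣ n ∨ (p ∈ R ∧ p ∣ n + s)) := by
      ext n
      rw [Finset.mem_filter, Finset.mem_filter, dvd_of_dvd_PP hd]
      constructor
      · rintro ⟨h0, h⟩
        exact ⟨h0, fun p hp =>
          (prime_dvd_FFs s R (Nat.prime_of_mem_primeFactors hp)).mp (h p hp)⟩
      · rintro ⟨h0, h⟩
        exact ⟨h0, fun p hp =>
          (prime_dvd_FFs s R (Nat.prime_of_mem_primeFactors hp)).mpr (h p hp)⟩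
    rw [← h2]
    exact h1
  have e2 : (pairSieve s R hR3 a u N).nu d * (pairSieve s R hR3 a u N).totalMass =
      2 ^ (R.filter (fun r : ℕ => r ∣ d)).card * ((u : ℝ) / d) := by
    change nuTwo R d * (u : ℝ) = _
    rw [nuTwo_apply, hf]
    ring
  have h2 : ((2 : ℝ) ^ (R.filter (fun r : ℕ => r ∣ d)).card) ≤ d := by
    have := pow_card_le (R := R) hd0
    rw [hf] at this
    exact_mod_cast this
  unfold BoundingSieve.rem
  rw [e1, e2]
  exact h.trans h2

theorem pairSieve_sifted {s : ℕ} {R : Finset ℕ} (hR3 : ∀ r ∈ R, 3 ≤ r) (hR : ∀ r ∈ R, r.Prime) {a u N : ℕ} :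
    (((Finset.Ioc a (a + u)).filter (fun n => n.Prime ∧ ∀ r ∈ R, ¬ r ∣ n + s)).card : ℝ) ≤
      (pairSieve s R hR3 a u N).siftedSum + N := by
  have e : (pairSieve s R hR3 a u N).siftedSum =
      (((Finset.Ioc a (a + u)).filter (fun n => Nat.Coprime (PP 1 N) (FFs s R n))).card : ℝ) := by
    unfold BoundingSieve.siftedSum
    exact sum_supports s R hR3 a u N (fun m => Nat.Coprime (PP 1 N) m)
  rw [e]
  have h1 : (Finset.Ioc a (a + u)).filter (fun n => n.Prime ∧ ∀ r ∈ R, ¬ r ∣ n + s) ⊆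
      (Finset.Ioc a (a + u)).filter (fun n => Nat.Coprime (PP 1 N) (FFs s R n)) ∪ Finset.Icc 1 N := by
    intro n hn
    rw [Finset.mem_filter] at hn
    rw [Finset.mem_union, Finset.mem_filter, Finset.mem_Icc]
    by_cases h : n ≤ N
    · right; exact ⟨hn.2.1.one_lt.le, h⟩
    · left
      refine ⟨hn.1, ?_⟩
      apply Nat.coprime_of_dvd
      intro p hp h1 h2
      rcases (prime_dvd_FFs s R hp).mp h2 with h3 | ⟨h3, h4⟩
      · have := (Nat.prime_dvd_prime_iff_eq hp hn.2.1).mp h3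
        subst this
        exact h ((prime_dvd_PP hp).mp h1).1
      · exact hn.2.2 p h3 h4
  have h2 := (Finset.card_le_card h1).trans (Finset.card_union_le _ _)
  rw [Nat.card_Icc, Nat.add_sub_cancel] at h2
  exact_mod_cast h2

theorem pairSieve_selS {s : ℕ} {R : Finset ℕ} (hR3 : ∀ r ∈ R, 3 ≤ r) (a u N : ℕ) :
    (∑ l ∈ (Finset.Icc 1 N).filter Squarefree, ∏ p ∈ l.primeFactors,
        (if p ∈ R then 2 / ((p : ℝ) - 2) else 1 / ((p : ℝ) - 1))) ≤
      selS (pairSieve s R hR3 a u N) N := by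
  unfold selS
  have h1 : ∀ l ∈ (Finset.Icc 1 N).filter Squarefree,
      (∏ p ∈ l.primeFactors, (if p ∈ R then 2 / ((p : ℝ) - 2) else 1 / ((p : ℝ) - 1))) ≤
        (pairSieve s R hR3 a u N).selbergTerms l := by
    intro l hl
    rw [Finset.mem_filter, Finset.mem_Icc] at hl
    rw [selbergTerms_apply]
    change _ ≤ nuTwo R l * ∏ p ∈ l.primeFactors, (1 - nuTwo R p)⁻¹
    have h2 : nuTwo R l = ∏ p ∈ l.primeFactors, nuTwo R p := by
      conv_lhs => rw [← Nat.prod_primeFactors_of_squarefree hl.2]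
      exact (nuTwo_mult R).map_prod_of_subset_primeFactors l _ (Finset.Subset.refl _)
    rw [h2, ← Finset.prod_mul_distrib]
    apply le_of_eq
    apply Finset.prod_congr rfl
    intro p hp
    have hpp := Nat.prime_of_mem_primeFactors hp
    rw [nuTwo_prime R hpp]
    have hp2 : (2 : ℝ) ≤ p := by exact_mod_cast hpp.two_le
    split_ifs with h
    · have h3 : (3 : ℝ) ≤ p := by exact_mod_cast hR3 p h
      have h4 : (p : ℝ) - 2 ≠ 0 := by linarith
      have h5 : (p : ℝ) ≠ 0 := by linarith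
      have h6 : (1 : ℝ) - 2 / p = (p - 2) / p := by field_simp
      rw [h6, inv_div]
      field_simp
    · have h4 : (p : ℝ) - 1 ≠ 0 := by linarith
      have h5 : (p : ℝ) ≠ 0 := by linarith
      have h6 : (1 : ℝ) - 1 / p = (p - 1) / p := by field_simp
      rw [h6, inv_div]
      field_simp
  refine (Finset.sum_le_sum h1).trans ?_
  apply Finset.sum_le_sum_of_subset_of_nonneg
  · intro l hl
    rw [Finset.mem_filter, Finset.mem_Icc] at hl
    rw [Finset.mem_filter, Nat.mem_divisors]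
    exact ⟨⟨dvd_PP_of_squarefree hl.2 hl.1.2 (Nat.coprime_one_right _),
      (PP_squarefree 1 N).ne_zero⟩, by exact_mod_cast hl.1.2⟩
  · intro l hl _
    rw [Finset.mem_filter, Nat.mem_divisors] at hl
    exact (selbergTerms_pos (s := pairSieve s R hR3 a u N) hl.1.1).le

theorem pairSieve_inv {s : ℕ} {R : Finset ℕ} (hR3 : ∀ r ∈ R, 3 ≤ r) (a u N : ℕ) :
    (∑ d ∈ (divisors (pairSieve s R hR3 a u N).prodPrimes).filter (fun d : ℕ => (d : ℝ) ≤ N),
      ((pairSieve s R hR3 a u N).nu d)⁻¹) ≤ (N : ℝ) ^ 2 := by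
  have h6 : (divisors (pairSieve s R hR3 a u N).prodPrimes).filter (fun d : ℕ => (d : ℝ) ≤ N) ⊆
      Finset.Icc 1 N := by
    intro d hd
    rw [Finset.mem_filter, Nat.mem_divisors] at hd
    rw [Finset.mem_Icc]
    refine ⟨Nat.pos_of_ne_zero (ne_zero_of_dvd_ne_zero hd.1.2 hd.1.1), by exact_mod_cast hd.2⟩
  calc (∑ d ∈ (divisors (pairSieve s R hR3 a u N).prodPrimes).filter (fun d : ℕ => (d : ℝ) ≤ N),
        ((pairSieve s R hR3 a u N).nu d)⁻¹)
      ≤ ∑ d ∈ (divisors (pairSieve s R hR3 a u N).prodPrimes).filter (fun d : ℕ => (d : ℝ) ≤ N),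
        (d : ℝ) := by
        apply Finset.sum_le_sum
        intro d hd
        change ((d : ℝ)⁻¹ * 2 ^ (R.filter (fun r => r.Prime ∧ r ∣ d)).card)⁻¹ ≤ d
        rw [mul_inv, inv_inv]
        have h1 : ((2 : ℝ) ^ (R.filter (fun r => r.Prime ∧ r ∣ d)).card)⁻¹ ≤ 1 :=
          inv_le_one_of_one_le₀ (one_le_pow₀ (by norm_num))
        have h2 : (0 : ℝ) ≤ d := Nat.cast_nonneg d
        calc (d : ℝ) * _ ≤ d * 1 := by gcongr
          _ = d := mul_one _
    _ ≤ ∑ d ∈ Finset.Icc 1 N, (d : ℝ) :=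
        Finset.sum_le_sum_of_subset_of_nonneg h6 (fun _ _ _ => by positivity)
    _ ≤ ∑ d ∈ Finset.Icc 1 N, (N : ℝ) := by
        apply Finset.sum_le_sum
        intro d hd
        exact_mod_cast (Finset.mem_Icc.mp hd).2
    _ = (N : ℝ) ^ 2 := by simp; ring

theorem pair_aux {s : ℕ} {R : Finset ℕ} (hR3 : ∀ r ∈ R, 3 ≤ r) (hR : ∀ r ∈ R, r.Prime)
    (hRs : ∀ r ∈ R, ¬ r ∣ s) {a u N : ℕ}
    (hN : 1 ≤ N) (L : ℝ) (hL : 0 < L)
    (hlow : L ≤ ∑ l ∈ (Finset.Icc 1 N).filter Squarefree, ∏ p ∈ l.primeFactors,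
        (if p ∈ R then 2 / ((p : ℝ) - 2) else 1 / ((p : ℝ) - 1))) :
    (((Finset.Ioc a (a + u)).filter (fun n => n.Prime ∧ ∀ r ∈ R, ¬ r ∣ n + s)).card : ℝ) ≤
      u / L + (N : ℝ) ^ 6 + N := by
  have hN' : (1 : ℝ) ≤ N := by exact_mod_cast hN
  have h1 := pairSieve_sifted (s := s) hR3 hR (a := a) (u := u) (N := N)
  have h2 := siftedSum_le_selberg' (pairSieve s R hR3 a u N) (N : ℝ) hN' ((N : ℝ) ^ 2) (by positivity)
    (fun d hd hdN => (pairSieve_rem hR3 hR hRs hd).trans hdN)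
  have h3 := hlow.trans (pairSieve_selS (s := s) hR3 a u N)
  have h4 : (pairSieve s R hR3 a u N).totalMass / selS (pairSieve s R hR3 a u N) N ≤ u / L := by
    change (u : ℝ) / _ ≤ _
    exact div_le_div_of_nonneg_left (by positivity) hL h3
  have h5 := pairSieve_inv (s := s) hR3 a u N
  have h7 : 0 ≤ (∑ d ∈ (divisors (pairSieve s R hR3 a u N).prodPrimes).filter
      (fun d : ℕ => (d : ℝ) ≤ N), ((pairSieve s R hR3 a u N).nu d)⁻¹) := by
    apply Finset.sum_nonneg
    intro d _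
    change 0 ≤ ((d : ℝ)⁻¹ * 2 ^ (R.filter (fun r => r.Prime ∧ r ∣ d)).card)⁻¹
    positivity
  have h8 : (N : ℝ) ^ 2 * (∑ d ∈ (divisors (pairSieve s R hR3 a u N).prodPrimes).filter
      (fun d : ℕ => (d : ℝ) ≤ N), ((pairSieve s R hR3 a u N).nu d)⁻¹) ^ 2 ≤ (N : ℝ) ^ 6 := by
    calc _ ≤ (N : ℝ) ^ 2 * ((N : ℝ) ^ 2) ^ 2 := by gcongr
      _ = (N : ℝ) ^ 6 := by ring
  linarith

end Pool.Agent.H357R2.SI
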